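import Pool.Agent.Q286.XG.Stm

set_option autoImplicit false

/-!
# Project EXG, job RateFG: the extremal function of infinite degree is tiny at the zeros
-/

namespace Pool.Agent.Q176.XG

open Filter Topology MeasureTheory
open Pool.Agent Pool.Agent.Q286.XG
open Pool.Agent.Q240.CG (m0)

theorem hd_of_top {a : ℝ} {f : ℝ → ℂ} (h : Y23.G.F.Hn a ⊤ f) : Y23.G.Hd a f := ⟨h.1, h.2.1⟩

theorem top_of_hd {a : ℝ} {f : ℝ → ℂ} (h : Y23.G.Hd a f) : Y23.G.F.Hn a ⊤ f :=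
  ⟨h.1, h.2, fun _ hk => absurd hk (not_lt.2 le_top)⟩

section

variable [D : Y23.G.ZD]

open Classical in
/-- the term of the central zero -/
noncomputable def cen {V : Type} [Zero V] (F : Y23.G.Zt → V) : V :=
  if h : (1 / 2 : ℂ) ∈ D.Zs then F ⟨1 / 2, h⟩ else 0

open Classical in
theorem split_c {V : Type} [AddCommGroup V] [TopologicalSpace V] [T2Space V] [IsTopologicalAddGroup V]
    (F : Y23.G.Zt → V) (hF : Summable F) :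
    (Summable fun ρ : Y23.G.Zt => if (ρ : ℂ) = 1 / 2 then 0 else F ρ) ∧
    ∑' ρ, F ρ = cen F + ∑' ρ : Y23.G.Zt, if (ρ : ℂ) = 1 / 2 then 0 else F ρ := by
  by_cases h : (1 / 2 : ℂ) ∈ D.Zs
  · have e : (fun ρ : Y23.G.Zt => if (ρ : ℂ) = 1 / 2 then 0 else F ρ) =
        fun ρ : Y23.G.Zt => if ρ = ⟨1 / 2, h⟩ then 0 else F ρ := by
      funext ρ
      simp only [Subtype.ext_iff]
    rw [e]
    refine ⟨?_, ?_⟩
    · have h1 : (fun ρ : Y23.G.Zt => if ρ = ⟨1 / 2, h⟩ then 0 else F ρ) =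
          fun ρ => F ρ - if ρ = ⟨1 / 2, h⟩ then F ρ else 0 := by
        funext ρ
        split_ifs <;> simp
      rw [h1]
      refine hF.sub (summable_of_ne_finset_zero (s := {(⟨1 / 2, h⟩ : Y23.G.Zt)}) fun ρ hρ => ?_)
      rw [if_neg (by simpa using hρ)]
    · rw [hF.tsum_eq_add_tsum_ite ⟨1 / 2, h⟩]
      unfold cen
      rw [dif_pos h]
  · have e : (fun ρ : Y23.G.Zt => if (ρ : ℂ) = 1 / 2 then 0 else F ρ) = F := by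
      funext ρ
      have h1 : (ρ : ℂ) ≠ 1 / 2 := fun hρ => h (by rw [← hρ]; exact ρ.2)
      rw [if_neg h1]
    rw [e]
    refine ⟨hF, ?_⟩
    unfold cen
    rw [dif_neg h, zero_add]

theorem m0_eq : (m0 : ℕ) = mc (1 / 2 : ℂ) := by
  unfold m0 mc
  rfl

variable [Y23.G.ZC]

open Classical in
/-- the sesquilinear form at one zero -/
theorem one_zero (hRH : RHG) {a : ℝ} (ha : 0 < a) {f G : ℝ → ℂ} (hf : Y23.G.Hd a f)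
    (hG : Y23.G.Hd a G) (ρ0 : Y23.G.Zt) (hρ0 : (ρ0 : ℂ) ≠ 1 / 2) (E : ℝ) (hf0 : Y23.TT f 0 = 1)
    (h1 : Y23.G.SS f ≤ (m0 : ℝ) + E)
    (hG1 : Y23.TT G ((ρ0 : ℂ) - 1 / 2) = 1) (h2 : Y23.G.SS G ≤ (Y23.G.mu (ρ0 : ℂ) : ℝ) + E) :
    (Y23.G.mu (ρ0 : ℂ) : ℝ) * ‖Y23.TT f ((ρ0 : ℂ) - 1 / 2)‖ ≤
      ‖Y23.G.QB f G - (m0 : ℂ) * (starRingEnd ℂ) (Y23.TT G 0)‖ + E := by
  have hfD : Y23.G.Dom f := hf.dom ha
  have hGD : Y23.G.Dom G := hG.dom ha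
  have hrf : ∀ ρ : Y23.G.Zt, -(starRingEnd ℂ) ((ρ : ℂ) - 1 / 2) = (ρ : ℂ) - 1 / 2 := by
    intro ρ
    apply Complex.ext
    · simp [hRH ρ]
    · simp
  have hGG : ∀ ρ : Y23.G.Zt, Y23.G.GG f G ((ρ : ℂ) - 1 / 2) =
      Y23.TT f ((ρ : ℂ) - 1 / 2) * (starRingEnd ℂ) (Y23.TT G ((ρ : ℂ) - 1 / 2)) := by
    intro ρ
    unfold Y23.G.GG
    rw [hrf]
  obtain ⟨F, hF⟩ : ∃ F : Y23.G.Zt → ℂ, F = fun ρ : Y23.G.Zt => (Y23.G.mu (ρ : ℂ) : ℂ) *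
    Y23.G.GG f G ((ρ : ℂ) - 1 / 2) := ⟨_, rfl⟩
  obtain ⟨g, hg⟩ : ∃ g : Y23.G.Zt → ℝ, g = fun ρ : Y23.G.Zt => 1 / 2 * ((Y23.G.mu (ρ : ℂ) : ℝ) *
    ‖Y23.TT f ((ρ : ℂ) - 1 / 2)‖ ^ 2 + (Y23.G.mu (ρ : ℂ) : ℝ) * ‖Y23.TT G ((ρ : ℂ) - 1 / 2)‖ ^ 2) :=
    ⟨_, rfl⟩
  have hFs : Summable F := by
    rw [hF]
    exact Y23.G.summable_GG hfD hGD
  have hgs : Summable g := by
    rw [hg]
    exact (Summable.add hfD hGD).mul_left (1 / 2)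
  have hFg : ∀ ρ, ‖F ρ‖ ≤ g ρ := by
    intro ρ
    rw [hF, hg]
    beta_reduce
    rw [norm_mul, Complex.norm_natCast, hGG, norm_mul, RCLike.norm_conj]
    have h5 : ‖Y23.TT f ((ρ : ℂ) - 1 / 2)‖ * ‖Y23.TT G ((ρ : ℂ) - 1 / 2)‖ ≤
        1 / 2 * (‖Y23.TT f ((ρ : ℂ) - 1 / 2)‖ ^ 2 + ‖Y23.TT G ((ρ : ℂ) - 1 / 2)‖ ^ 2) := by
      nlinarith [sq_nonneg (‖Y23.TT f ((ρ : ℂ) - 1 / 2)‖ - ‖Y23.TT G ((ρ : ℂ) - 1 / 2)‖)]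
    calc _ ≤ _ := mul_le_mul_of_nonneg_left h5 (Nat.cast_nonneg (Y23.G.mu (ρ : ℂ)) : (0 : ℝ) ≤ Y23.G.mu (ρ : ℂ))
      _ = _ := by ring
  have hgn : ∀ ρ, 0 ≤ g ρ := fun ρ => (norm_nonneg _).trans (hFg ρ)
  obtain ⟨hF1s, hF1⟩ := split_c F hFs
  obtain ⟨hg1s, hg1⟩ := split_c g hgs
  obtain ⟨F1, hF1d⟩ : ∃ F1 : Y23.G.Zt → ℂ, F1 = fun ρ : Y23.G.Zt => if (ρ : ℂ) = 1 / 2 then 0 else F ρ := ⟨_, rfl⟩
  obtain ⟨g1, hg1d⟩ : ∃ g1 : Y23.G.Zt → ℝ, g1 = fun ρ : Y23.G.Zt => if (ρ : ℂ) = 1 / 2 then 0 else g ρ := ⟨_, rfl⟩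
  rw [← hF1d] at hF1s hF1
  rw [← hg1d] at hg1s hg1
  have hFg1 : ∀ ρ, ‖F1 ρ‖ ≤ g1 ρ := by
    intro ρ
    rw [hF1d, hg1d]
    beta_reduce
    split_ifs
    · simp
    · exact hFg ρ
  have hg1n : ∀ ρ, 0 ≤ g1 ρ := fun ρ => (norm_nonneg _).trans (hFg1 ρ)
  have e0 : Y23.G.QB f G = ∑' ρ, F ρ := by rw [hF]; rfl
  have e1 : ∑' ρ, F1 ρ = F1 ρ0 + ∑' ρ, if ρ = ρ0 then 0 else F1 ρ := hF1s.tsum_eq_add_tsum_ite ρ0
  have e2 : ∑' ρ, g1 ρ = g1 ρ0 + ∑' ρ, if ρ = ρ0 then 0 else g1 ρ := hg1s.tsum_eq_add_tsum_ite ρ0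
  have e3 : ∑' ρ, g ρ = 1 / 2 * (Y23.G.SS f + Y23.G.SS G) := by
    rw [hg, tsum_mul_left, Summable.tsum_add hfD hGD]
    rfl
  have hsi : Summable (fun ρ => if ρ = ρ0 then 0 else g1 ρ) := by
    refine Summable.of_nonneg_of_le (fun ρ => ?_) (fun ρ => ?_) hg1s
    · split_ifs
      · exact le_rfl
      · exact hg1n ρ
    · split_ifs
      · exact hg1n ρ
      · exact le_rfl
  have e4 : ‖∑' ρ, if ρ = ρ0 then 0 else F1 ρ‖ ≤ ∑' ρ, if ρ = ρ0 then 0 else g1 ρ := by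
    refine tsum_of_norm_bounded hsi.hasSum fun ρ => ?_
    split_ifs
    · simp
    · exact hFg1 ρ
  have e5 : F1 ρ0 = F ρ0 := by
    rw [hF1d]
    beta_reduce
    rw [if_neg hρ0]
  have e5' : g1 ρ0 = g ρ0 := by
    rw [hg1d]
    beta_reduce
    rw [if_neg hρ0]
  have e6 : g ρ0 = 1 / 2 * ((Y23.G.mu (ρ0 : ℂ) : ℝ) * ‖Y23.TT f ((ρ0 : ℂ) - 1 / 2)‖ ^ 2 +
      (Y23.G.mu (ρ0 : ℂ) : ℝ)) := by
    rw [hg]
    beta_reduce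
    rw [hG1]
    simp
  have e7 : ‖F ρ0‖ = (Y23.G.mu (ρ0 : ℂ) : ℝ) * ‖Y23.TT f ((ρ0 : ℂ) - 1 / 2)‖ := by
    rw [hF]
    beta_reduce
    rw [norm_mul, Complex.norm_natCast, hGG, hG1]
    simp
  have e8 : 0 ≤ (Y23.G.mu (ρ0 : ℂ) : ℝ) * ‖Y23.TT f ((ρ0 : ℂ) - 1 / 2)‖ ^ 2 := by positivity
  have c1 : cen F = (m0 : ℂ) * (starRingEnd ℂ) (Y23.TT G 0) := by
    unfold cen m0
    split_ifs with h
    · rw [hF]
      beta_reduce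
      rw [hGG]
      show (Y23.G.mu (1 / 2 : ℂ) : ℂ) * (Y23.TT f ((1 / 2 : ℂ) - 1 / 2) * (starRingEnd ℂ) (Y23.TT G ((1 / 2 : ℂ) - 1 / 2))) = _
      rw [sub_self, hf0, one_mul]
      rfl
    · simp
  have c2 : 1 / 2 * (m0 : ℝ) ≤ cen g := by
    unfold cen m0
    split_ifs with h
    · rw [hg]
      beta_reduce
      show _ ≤ 1 / 2 * ((Y23.G.mu (1 / 2 : ℂ) : ℝ) * ‖Y23.TT f ((1 / 2 : ℂ) - 1 / 2)‖ ^ 2 +
        (Y23.G.mu (1 / 2 : ℂ) : ℝ) * ‖Y23.TT G ((1 / 2 : ℂ) - 1 / 2)‖ ^ 2)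
      rw [sub_self, hf0, norm_one, one_pow, mul_one]
      have h9 : 0 ≤ (Y23.G.mu (1 / 2 : ℂ) : ℝ) * ‖Y23.TT G 0‖ ^ 2 := by positivity
      have h10 : ((D.mul (1 / 2) : ℕ) : ℝ) = (Y23.G.mu (1 / 2 : ℂ) : ℝ) := rfl
      rw [h10]
      linarith
    · simp
  have e9 : F ρ0 = (Y23.G.QB f G - (m0 : ℂ) * (starRingEnd ℂ) (Y23.TT G 0)) -
      ∑' ρ, if ρ = ρ0 then 0 else F1 ρ := by
    rw [e0, hF1, e1, c1, e5]
    ring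
  rw [← e7, e9]
  refine (norm_sub_le _ _).trans ?_
  linarith

end

/-- **RateFG**: the extremal function of infinite degree is tiny at the zeros -/
theorem rateFG : S_RateFG := by
  intro hXP D _ _ hRH E q hE hRG c hc
  have hfirst : ∀ c : ℝ, c < 2 * q → ∀ᶠ a : ℝ in atTop, ∀ f : ℝ → ℂ, XtG a ⊤ f →
      Y23.G.QQ f ≤ (m0 : ℝ) + Real.exp (-(c * E a)) := by
    intro c hc
    obtain ⟨C, hC⟩ := hRG 0 c hc
    filter_upwards [hC] with a ha f hf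
    obtain ⟨G, hG, hG1, -, hGS⟩ := ha
    have e : Complex.I * ((0 : ℝ) : ℂ) = 0 := by simp
    have e' : (1 / 2 + Complex.I * ((0 : ℝ) : ℂ) : ℂ) = 1 / 2 := by simp
    rw [e] at hG1
    rw [e', ← m0_eq] at hGS
    refine (hf.2.2 G (top_of_hd hG) hG1).trans ?_
    rw [Y23.G.QQ_eq_SS hRH]
    exact hGS
  refine ⟨hfirst c hc, ?_⟩
  intro γ hγ hz
  obtain ⟨c', hc'⟩ : ∃ c', c' = (c + 2 * q) / 2 := ⟨_, rfl⟩
  have hc1 : c < c' := by linarith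
  have hc2 : c' < 2 * q := by linarith
  obtain ⟨ρ0, hρ0⟩ : ∃ ρ0 : Y23.G.Zt, (ρ0 : ℂ) = 1 / 2 + Complex.I * γ := ⟨⟨_, hz⟩, rfl⟩
  have hρ1 : (ρ0 : ℂ) - 1 / 2 = Complex.I * γ := by rw [hρ0]; ring
  have hρ2 : (ρ0 : ℂ) ≠ 1 / 2 := by
    intro h
    rw [h, sub_self] at hρ1
    have h1 : (γ : ℂ) = 0 := by
      rcases mul_eq_zero.1 hρ1.symm with h2 | h2
      · exact absurd h2 Complex.I_ne_zero
      · exact h2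
    exact hγ (by exact_mod_cast h1)
  have hmu : 1 ≤ Y23.G.mu (ρ0 : ℂ) := D.mpos _ ρ0.2
  have hmu' : (1 : ℝ) ≤ (Y23.G.mu (ρ0 : ℂ) : ℝ) := by exact_mod_cast hmu
  have hmc : mc (1 / 2 + Complex.I * (γ : ℂ)) = Y23.G.mu (ρ0 : ℂ) := by
    rw [hρ0]
    unfold mc
    rw [if_pos hz]
    rfl
  obtain ⟨C, hC⟩ := hRG γ c' hc2
  obtain ⟨C', hC'⟩ : ∃ C' : ℝ, C' = |C| + 1 := ⟨_, rfl⟩
  have hCp : 0 < C' := by rw [hC']; positivity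
  have hX : Tendsto (fun a : ℝ => (c' - c) * E a) atTop atTop := hE.const_mul_atTop (by linarith)
  filter_upwards [hfirst c' hc2, hC, hX.eventually_ge_atTop (Real.log C'), eventually_gt_atTop 0] with a h1 h2 h3 ha
  intro f hf
  obtain ⟨G, hG, hG1, hG0, hGS⟩ := h2
  rw [hmc] at hGS
  have hfd : Y23.G.Hd a f := hd_of_top hf.1
  have hQ := h1 f hf
  obtain ⟨hQ0, -, -, -, -, hort⟩ := hXP hRH a ⊤ f ha hf
  have hQB := hort G (top_of_hd hG)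
  have h4 := one_zero hRH ha hfd hG ρ0 hρ2 (Real.exp (-(c' * E a))) hf.2.1 (by rw [← Y23.G.QQ_eq_SS hRH]; exact hQ)
    (by rw [hρ1]; exact hG1) hGS
  rw [hρ1] at h4
  have h5 : ‖Y23.G.QB f G - (m0 : ℂ) * (starRingEnd ℂ) (Y23.TT G 0)‖ ≤ Real.exp (-(c' * E a)) * |C| := by
    have e : Y23.G.QB f G - (m0 : ℂ) * (starRingEnd ℂ) (Y23.TT G 0) =
        ((Y23.G.QQ f - (m0 : ℝ) : ℝ) : ℂ) * (starRingEnd ℂ) (Y23.TT G 0) := by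
      rw [hQB]
      push_cast
      ring
    rw [e, norm_mul, Complex.norm_real, RCLike.norm_conj, Real.norm_of_nonneg (by linarith)]
    refine mul_le_mul (by linarith) (hG0.trans (le_abs_self C)) (norm_nonneg _) (Real.exp_pos _).le
  have h7 : Real.exp (-(c' * E a)) * C' ≤ Real.exp (-(c * E a)) := by
    rw [← Real.exp_log hCp, ← Real.exp_add]
    apply Real.exp_le_exp.2
    linarith
  have h9 : ‖Y23.TT f (Complex.I * γ)‖ ≤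
      (Y23.G.mu (ρ0 : ℂ) : ℝ) * ‖Y23.TT f (Complex.I * γ)‖ :=
    le_mul_of_one_le_left (norm_nonneg _) hmu'
  rw [hC'] at h7
  linarith

end Pool.Agent.Q176.XG
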