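import Pool.Agent.Q286.XG.Stm
import Pool.Agent.Q68.EX.LimS2

set_option autoImplicit false

/-!
# Project EXG, job UZtG: the collapse for all degrees, also infinite
-/

namespace Pool.Agent.Q176.XG

open Filter Topology MeasureTheory
open Pool.Agent
open Pool.Agent.Q240.EX Pool.Agent.Q240.CD Pool.Agent.Q286.XG
open Pool.Agent.Q240.CG (m0)

lemma hd_of_hn {a : ℝ} {ν : ℕ∞} {f : ℝ → ℂ} (hf : Y23.G.F.Hn a ν f) : Y23.G.Hd a f := ⟨hf.1, hf.2.1⟩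

lemma hn_mono {a : ℝ} {ν ν' : ℕ∞} (h : ν ≤ ν') {f : ℝ → ℂ} (hf : Y23.G.F.Hn a ν f) : Y23.G.F.Hn a ν' f :=
  ⟨hf.1, hf.2.1, fun k hk => hf.2.2 k (h.trans_lt hk)⟩

lemma sq_add_le_par (x y : ℂ) {s : ℝ} (hs : 0 < s) : ‖x + y‖ ^ 2 ≤ (1 + s) * ‖x‖ ^ 2 + (1 + 1 / s) * ‖y‖ ^ 2 := by
  have h := norm_add_le x y
  have h0 := norm_nonneg (x + y)
  have h1 : ‖x + y‖ ^ 2 ≤ (‖x‖ + ‖y‖) ^ 2 := pow_le_pow_left₀ h0 h 2
  have h2 : 2 * ‖x‖ * ‖y‖ ≤ s * ‖x‖ ^ 2 + 1 / s * ‖y‖ ^ 2 := by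
    have h3 : 0 ≤ (s * ‖x‖ - ‖y‖) ^ 2 / s := by positivity
    have h4 : (s * ‖x‖ - ‖y‖) ^ 2 / s = s * ‖x‖ ^ 2 - 2 * ‖x‖ * ‖y‖ + 1 / s * ‖y‖ ^ 2 := by
      field_simp
      ring
    linarith
  nlinarith

lemma SS_add_par [D : Y23.G.ZD] [Y23.G.ZC] {a : ℝ} (ha : 0 < a) {f g : ℝ → ℂ} (hf : Y23.G.Hd a f) (hg : Y23.G.Hd a g)
    {s : ℝ} (hs : 0 < s) :
    Y23.G.SS (fun x => f x + g x) ≤ (1 + s) * Y23.G.SS f + (1 + 1 / s) * Y23.G.SS g := by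
  unfold Y23.G.SS
  have h1 := hf.dom ha
  have h2 := hg.dom ha
  rw [← tsum_mul_left, ← tsum_mul_left, ← (h1.mul_left (1 + s)).tsum_add (h2.mul_left (1 + 1 / s))]
  refine ((hf.add hg).dom ha).tsum_le_tsum (fun ρ => ?_) ((h1.mul_left (1 + s)).add (h2.mul_left (1 + 1 / s)))
  rw [Y23.TT_add hf.1 hg.1]
  have h3 := mul_le_mul_of_nonneg_left (sq_add_le_par (Y23.TT f ((ρ : ℂ) - 1 / 2)) (Y23.TT g ((ρ : ℂ) - 1 / 2)) hs)
    (Nat.cast_nonneg (Y23.G.mu ρ) : (0 : ℝ) ≤ Y23.G.mu ρ)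
  linarith

lemma SS_neg [D : Y23.G.ZD] (f : ℝ → ℂ) : Y23.G.SS (fun x => -1 * f x) = Y23.G.SS f := by
  unfold Y23.G.SS
  refine tsum_congr fun ρ => ?_
  rw [Y23.TT_smul]
  simp

/-- the filter, in plain words -/
lemma of_Lc {c : ℝ} {P : ℝ × ℕ → Prop} (h : ∀ᶠ p in Lc c, P p) :
    ∃ A : ℝ, ∀ (a : ℝ) (n : ℕ), A ≤ a → ⌈c * a ^ 2⌉₊ ≤ n → P (a, n) := by
  unfold Lc at h
  rw [eventually_inf_principal] at h
  have hb := (atTop_basis (α := ℝ)).comap (fun p : ℝ × ℕ => p.1)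
  obtain ⟨A, -, hs⟩ := hb.mem_iff.1 h
  exact ⟨A, fun a n ha hn => hs (show (a, n) ∈ (fun p : ℝ × ℕ => p.1) ⁻¹' Set.Ici A from ha) hn⟩

/-- convergence of the transforms -/
lemma TT_tendsto {a : ℝ} (ha : 0 < a) {f : ℝ → ℂ} {h : ℕ → ℝ → ℂ} (hf : Y23.G.Hd a f) (hh : ∀ k, Y23.G.Hd a (h k))
    (hl : ∀ k : ℕ, Y23.G.LL (fun x => f x - h k x) ≤ 1 / ((k : ℝ) + 1)) (w : ℂ) :
    Tendsto (fun k => Y23.TT (h k) w) atTop (𝓝 (Y23.TT f w)) := by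
  have hC : 0 ≤ 2 * a * Real.exp (2 * a * |w.re|) := by positivity
  have h1 : ∀ k, ‖Y23.TT (h k) w - Y23.TT f w‖ ^ 2 ≤ 2 * a * Real.exp (2 * a * |w.re|) * (1 / ((k : ℝ) + 1)) := by
    intro k
    have h2 : Y23.G.Hd a (fun x => f x - h k x) := hf.sub (hh k)
    have h3 := Y23.norm_TT_le ha h2.1 w
    have h4 := Y23.G.N2_le_LL h2
    have h5 := hl k
    have h6 := Y23.N2_nonneg (fun x => f x - h k x)
    have hpi := Real.pi_gt_three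
    rw [Y23.TT_sub hf.1 (hh k).1] at h3
    rw [norm_sub_rev]
    refine h3.trans (mul_le_mul_of_nonneg_left ?_ hC)
    nlinarith
  have h2 : Tendsto (fun k : ℕ => 2 * a * Real.exp (2 * a * |w.re|) * (1 / ((k : ℝ) + 1))) atTop (𝓝 0) := by
    have := (tendsto_one_div_add_atTop_nhds_zero_nat (𝕜 := ℝ)).const_mul (2 * a * Real.exp (2 * a * |w.re|))
    simpa using this
  have h3 : Tendsto (fun k => ‖Y23.TT (h k) w - Y23.TT f w‖ ^ 2) atTop (𝓝 0) :=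
    squeeze_zero (fun k => by positivity) h1 h2
  have h4 : Tendsto (fun k => ‖Y23.TT (h k) w - Y23.TT f w‖) atTop (𝓝 0) := by
    have := h3.sqrt
    simpa [Real.sqrt_sq (norm_nonneg _)] using this
  exact tendsto_iff_norm_sub_tendsto_zero.2 h4

/-- for fixed `a` the products over the nodes beyond the degree tend to `1` -/
lemma Sp_tendsto {a : ℝ} (ha : 0 < a) (z : ℂ) {n : ℕ → ℕ} (hn : ∀ k, k + 1 ≤ n k) :
    Tendsto (fun k => Sp a (n k) z) atTop (𝓝 1) := by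
  have hpi := Real.pi_pos
  have h1 : Tendsto (fun k : ℕ => Real.exp (‖z‖ ^ 2 * a ^ 2 / Real.pi ^ 2 * (1 / ((k : ℝ) + 1))) - 1) atTop (𝓝 0) := by
    have h2 := (tendsto_one_div_add_atTop_nhds_zero_nat (𝕜 := ℝ)).const_mul (‖z‖ ^ 2 * a ^ 2 / Real.pi ^ 2)
    rw [mul_zero] at h2
    have h3 := ((Real.continuous_exp.tendsto 0).comp h2).sub_const 1
    simpa using h3
  refine tendsto_iff_norm_sub_tendsto_zero.2 (squeeze_zero (fun k => norm_nonneg _) (fun k => ?_) h1)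
  have h2 : 1 ≤ n k := le_trans (by omega) (hn k)
  refine (Pool.Agent.Q68.EX.sp_sub ha h2 z).trans ?_
  have h3 : ((k : ℝ) + 1) ≤ n k := by exact_mod_cast hn k
  have h4 : ‖z‖ ^ 2 * (a ^ 2 / (Real.pi ^ 2 * n k)) ≤ ‖z‖ ^ 2 * a ^ 2 / Real.pi ^ 2 * (1 / ((k : ℝ) + 1)) := by
    have e : ‖z‖ ^ 2 * (a ^ 2 / (Real.pi ^ 2 * n k)) = ‖z‖ ^ 2 * a ^ 2 / Real.pi ^ 2 * (1 / (n k : ℝ)) := by
      have : (n k : ℝ) ≠ 0 := by positivity
      field_simp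
    rw [e]
    refine mul_le_mul_of_nonneg_left ?_ (by positivity)
    exact one_div_le_one_div_of_le (by positivity) h3
  linarith [Real.exp_le_exp.2 h4]

lemma SpN_coe (a : ℝ) (n : ℕ) (z : ℂ) : SpN a (n : ℕ∞) z = Sp a n z := by
  unfold SpN
  rw [if_neg (ENat.natCast_ne_top n), ENat.toNat_natCast]

lemma SpN_top (a : ℝ) (z : ℂ) : SpN a ⊤ z = 1 := by
  unfold SpN
  rw [if_pos rfl]

/-- **UZtG**: the collapse for all degrees, also infinite -/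
theorem uZtG : S_UZtG := by
  intro hUZ hMU hF2 hDn D _ _ hRH γ hγ c hc R ε hε
  obtain ⟨A0, hfin⟩ := of_Lc (hUZ hMU hF2 hRH γ hγ c hc R ε hε)
  refine ⟨max A0 1, fun a ν ha hν δ hδ f hf z hz => ?_⟩
  have ha0 : A0 ≤ a := (le_max_left _ _).trans ha
  have ha1 : 1 ≤ a := (le_max_right _ _).trans ha
  have hapos : 0 < a := by linarith
  induction ν using ENat.recTopCoe with
  | coe n =>
    rw [SpN_coe]
    exact hfin a n ha0 (by unfold Big at hν; exact_mod_cast hν) δ hδ f hf z hz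
  | top =>
    have hfd := hd_of_hn hf
    have hex : ∀ k : ℕ, ∃ (n : ℕ) (h : ℝ → ℂ), ⌈c * a ^ 2⌉₊ ≤ n ∧ k + 1 ≤ n ∧ Y23.G.F.Hn a (n : ℕ∞) h ∧
        Y23.G.LL (fun x => f x - h x) ≤ 1 / ((k : ℝ) + 1) := by
      intro k
      obtain ⟨n, h, h1, h2⟩ := hDn a f hapos hfd (1 / ((k : ℝ) + 1)) (by positivity)
      exact ⟨max n (max ⌈c * a ^ 2⌉₊ (k + 1)), h, (le_max_left _ _).trans (le_max_right _ _),
        (le_max_right _ _).trans (le_max_right _ _), hn_mono (by exact_mod_cast le_max_left _ _) h1, h2⟩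
    choose n h hn1 hn2 hh hl using hex
    obtain ⟨C, hC, hdom⟩ := Y23.G.dom_of_Hd hapos
    set G : ℂ := GC (fun j => γ j ^ 2) (z ^ 2) with hG
    rw [SpN_top]
    have hhd : ∀ k, Y23.G.Hd a (h k) := fun k => hd_of_hn (hh k)
    have hfinite : ∀ k, δ * ‖Y23.TT (h k) (Complex.I * z) - Y23.TT (h k) 0 * (G * Sp a (n k) z)‖ ^ 2 ≤
        ε * (Y23.G.QQ (h k) - m0 * ‖Y23.TT (h k) 0‖ ^ 2) := by
      intro k
      exact hfin a (n k) ha0 (hn1 k) δ (fun g hg hg0 => hδ g (hn_mono le_top hg) hg0) (h k) (hh k) z hz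
    have hT0 := TT_tendsto hapos hfd hhd hl 0
    have hlim : Tendsto (fun k => δ * ‖Y23.TT (h k) (Complex.I * z) - Y23.TT (h k) 0 * (G * Sp a (n k) z)‖ ^ 2) atTop
        (𝓝 (δ * ‖Y23.TT f (Complex.I * z) - Y23.TT f 0 * (G * 1)‖ ^ 2)) :=
      ((((TT_tendsto hapos hfd hhd hl _).sub (hT0.mul ((Sp_tendsto hapos z hn2).const_mul G))).norm).pow 2).const_mul δ
    have hSS : ∀ s : ℝ, 0 < s → ∀ k : ℕ, Y23.G.SS (h k) ≤ (1 + s) * Y23.G.SS f + (1 + 1 / s) * (C * (1 / ((k : ℝ) + 1))) := by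
      intro s hs k
      have h1 : Y23.G.Hd a (fun x => f x - h k x) := hfd.sub (hhd k)
      have h2 := SS_add_par hapos hfd (h1.smul (-1)) hs
      have e : (fun x => f x + -1 * (f x - h k x)) = h k := by funext x; ring
      rw [e, SS_neg] at h2
      refine h2.trans ?_
      have h3 := (hdom _ h1).2
      have h4 : Y23.G.SS (fun x => f x - h k x) ≤ C * (1 / ((k : ℝ) + 1)) :=
        h3.trans (mul_le_mul_of_nonneg_left (hl k) hC.le)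
      have h5 : 0 ≤ 1 + 1 / s := by positivity
      have := mul_le_mul_of_nonneg_left h4 h5
      linarith
    have hkey : ∀ s : ℝ, 0 < s → δ * ‖Y23.TT f (Complex.I * z) - Y23.TT f 0 * (G * 1)‖ ^ 2 ≤
        ε * ((1 + s) * Y23.G.SS f - m0 * ‖Y23.TT f 0‖ ^ 2) := by
      intro s hs
      have h1 : Tendsto (fun k : ℕ => ε * ((1 + s) * Y23.G.SS f + (1 + 1 / s) * (C * (1 / ((k : ℝ) + 1))) -
          m0 * ‖Y23.TT (h k) 0‖ ^ 2)) atTop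
          (𝓝 (ε * ((1 + s) * Y23.G.SS f + (1 + 1 / s) * (C * 0) - m0 * ‖Y23.TT f 0‖ ^ 2))) :=
        (((((tendsto_one_div_add_atTop_nhds_zero_nat (𝕜 := ℝ)).const_mul C).const_mul (1 + 1 / s)).const_add
          ((1 + s) * Y23.G.SS f)).sub ((hT0.norm.pow 2).const_mul _)).const_mul ε
      have h2 := le_of_tendsto_of_tendsto' hlim h1 fun k => (hfinite k).trans (by
        rw [Y23.G.QQ_eq_SS hRH]
        have h6 := hSS s hs k
        exact mul_le_mul_of_nonneg_left (by linarith) hε.le)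
      simpa using h2
    have h3 : Tendsto (fun m : ℕ => ε * ((1 + 1 / ((m : ℝ) + 1)) * Y23.G.SS f - m0 * ‖Y23.TT f 0‖ ^ 2)) atTop
        (𝓝 (ε * ((1 + 0) * Y23.G.SS f - m0 * ‖Y23.TT f 0‖ ^ 2))) :=
      ((((tendsto_one_div_add_atTop_nhds_zero_nat (𝕜 := ℝ)).const_add 1).mul_const (Y23.G.SS f)).sub_const _).const_mul ε
    have h4 := ge_of_tendsto' h3 fun m => hkey (1 / ((m : ℝ) + 1)) (by positivity)
    rw [Y23.G.QQ_eq_SS hRH]
    simpa using h4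

end Pool.Agent.Q176.XG
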